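import Mathlib
import Pool.Agent.TH104.HY.I
import Pool.Agent.TH855.CBounds

set_option autoImplicit false

/-!
# `(p,1)`-total labellings of `F`-free graphs
-/

namespace Pool.Agent.X73.HYF

open Finset Pool.Agent.TH104.HY Pool.Agent.H238R2.HY Pool.Agent.Helper311.Glue

/-- colouring the types of an `F`-free graph -/
lemma ff_colour {U V : Type} [Fintype V] (F : SimpleGraph U) (G : SimpleGraph V)
    [DecidableRel G.Adj] (hfree : F.Free G) (t : V → ℕ) (w k : ℕ) (y a : ℝ)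
    (hgb : ∀ (P : Set V) [DecidablePred (· ∈ P)], (∀ T : Set V, T ⊆ P → ¬ Cp F G T) →
      (∀ v ∈ P, (((G.neighborFinset v).filter (fun u => u ∈ P)).card : ℝ) ≤ y) →
        ∃ n : ℕ, (n : ℝ) ≤ a ∧ ColOn G P n) (hwy : (w : ℝ) ≤ y) (hak : a ≤ k)
    (hw : ∀ v y, ((G.neighborFinset v).filter (fun u => t u = y)).card ≤ w) :
    ∃ c : V → ℕ, (∀ v, c v < k) ∧ ∀ u v, G.Adj u v → t u = t v → c u ≠ c v := by
  classical
  have h : ∀ z : ℕ, ∃ f : V → ℕ, (∀ v, t v = z → f v < k) ∧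
      ∀ u, t u = z → ∀ v, t v = z → G.Adj u v → f u ≠ f v := by
    intro z
    obtain ⟨n, hn, f, hf1, hf2⟩ := hgb {v | t v = z} (by
      rintro T - ⟨φ, hφ, -⟩
      exact hfree ⟨⟨⟨φ, fun {a b} hab => hφ.2 a b hab⟩, hφ.1⟩⟩) (by
      intro v _
      refine le_trans ?_ hwy
      have := hw v z
      refine le_trans (le_of_eq ?_) (Nat.cast_le.2 this)
      rfl)
    have hnk : n ≤ k := by
      have : (n : ℝ) ≤ k := hn.trans hak
      exact_mod_cast this
    exact ⟨f, fun v hv => lt_of_lt_of_le (hf1 v hv) hnk, fun u hu v hv huv => hf2 u hu v hv huv⟩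
  choose f hf1 hf2 using h
  refine ⟨fun v => f (t v) v, fun v => hf1 (t v) v rfl, ?_⟩
  intro u v huv htt
  change f (t u) u ≠ f (t v) v
  rw [htt]
  exact hf2 (t v) u htt v rfl huv

lemma ff_H2 {A e L D m x Y w k : ℝ} (hA : 0 ≤ A) (he0 : 0 < e) (he1 : e ≤ 1)
    (heA : (A + 1) * e ≤ 1) (hL : 10 ^ 4 ≤ L) (hL2 : 10 ^ 4 / e ^ 2 ≤ L)
    (hm0 : 1 ≤ m)
    (hm2 : m ≤ L ^ 2 / 100) (h96 : 96 * L ^ 2 * m ^ 2 ≤ D) (hxD : x * D = D / L ^ 2)
    (hY : 2 * m * Y = D) (hY0 : 0 < Y) (hw : w ≤ (1 + x) * Y) (hw2 : Y ≤ w + 1)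
    (hk : k ≤ (A + e / 2) * Y / L + 1) :
    2 * (0 + 1) * k + (2 * m - 1 - 2 * 0) * (w + 1) ≤ D + 2 := by
  have hL0 : 0 < L := by linarith
  have h1 : 2 * m * (w + 1) ≤ D + x * D + 2 * m := by
    have h2 : 2 * m * (w + 1) ≤ 2 * m * ((1 + x) * Y + 1) :=
      mul_le_mul_of_nonneg_left (by linarith) (by linarith)
    have h3 : 2 * m * ((1 + x) * Y + 1) = 2 * m * Y + x * (2 * m * Y) + 2 * m := by ring
    rw [h3, hY] at h2
    exact h2
  have h4 : x * D ≤ Y / 50 := by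
    rw [hxD, div_le_iff₀ (by positivity), ← hY]
    nlinarith
  have h5 : 2 * m ≤ Y / 24 := by
    have h6 : 2 * m * (2 * m) ≤ 2 * m * (Y / 24) := by
      have h7 : 2 * m * (Y / 24) = D / 24 := by rw [← hY]; ring
      rw [h7]
      have h8 : m ^ 2 * 96 ≤ m ^ 2 * (96 * L ^ 2) := by
        apply mul_le_mul_of_nonneg_left _ (by positivity)
        nlinarith
      nlinarith
    exact le_of_mul_le_mul_left h6 (by linarith)
  have hAL : (A + e / 2) * 100 ≤ L := by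
    have a1 : (A + 1) ≤ 1 / e := by rw [le_div_iff₀ he0]; exact heA
    have a2 : (1 : ℝ) / e ≤ 1 / e ^ 2 := by
      rw [div_le_div_iff₀ he0 (by positivity)]
      nlinarith
    have a3 : 10 ^ 4 * (1 / e ^ 2) = 10 ^ 4 / e ^ 2 := by ring
    have a4 : 10 ^ 4 * (A + 1) ≤ L := by
      calc 10 ^ 4 * (A + 1) ≤ 10 ^ 4 * (1 / e ^ 2) := by linarith
        _ = 10 ^ 4 / e ^ 2 := a3
        _ ≤ L := hL2
    linarith
  have h9 : (A + e / 2) * Y / L ≤ Y / 100 := by
    rw [div_le_iff₀ hL0]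
    have : (A + e / 2) * 100 * Y ≤ L * Y := mul_le_mul_of_nonneg_right hAL hY0.le
    linarith
  linarith

lemma ff_H3 {A e L D m x Y w k p : ℝ} (hA : 0 ≤ A) (he0 : 0 < e) (he1 : e ≤ 1)
    (hL : 10 ^ 4 ≤ L) (hm0 : 1 ≤ m)
    (h96 : 96 * L ^ 2 * m ^ 2 ≤ D) (heL : 16 ≤ e * L)
    (hem : 8 * L ≤ e * m) (hxD : x * D = D / L ^ 2) (hx1 : x ≤ 1)
    (hY : 2 * m * Y = D) (hY0 : 0 < Y) (hw : w ≤ (1 + x) * Y)
    (hk : k ≤ (A + e / 2) * Y / L + 1) (hp : (A / 2 + e) * (D / L) ≤ p) :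
    m * k + (2 * m + 1) * (w + 1) ≤ D + p + 2 := by
  have hL0 : 0 < L := by linarith
  obtain ⟨Q, hQ⟩ : ∃ Q : ℝ, Q = D / L := ⟨_, rfl⟩
  have hQL : Q * L = D := by rw [hQ]; field_simp
  have hD0 : 0 < D := by rw [← hY]; positivity
  have hQ0 : 0 < Q := by rw [hQ]; positivity
  rw [← hQ] at hp
  have h1 : m * k ≤ (A + e / 2) * (Q / 2) + m := by
    have h2 : m * k ≤ m * ((A + e / 2) * Y / L + 1) := mul_le_mul_of_nonneg_left hk (by linarith)
    have h3 : m * ((A + e / 2) * Y / L + 1) = (A + e / 2) * ((2 * m * Y) / L / 2) + m := by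
      field_simp
    rw [h3, hY, ← hQ] at h2
    exact h2
  have h4 : (2 * m + 1) * (w + 1) ≤ (2 * m + 1) * ((1 + x) * Y + 1) :=
    mul_le_mul_of_nonneg_left (by linarith) (by linarith)
  have h5 : (2 * m + 1) * ((1 + x) * Y + 1) =
      2 * m * Y + x * (2 * m * Y) + 2 * m + (1 + x) * Y + 1 := by ring
  rw [h5, hY, hxD] at h4
  have h6 : D / L ^ 2 ≤ e / 16 * Q := by
    rw [div_le_iff₀ (by positivity)]
    have : e / 16 * Q * L ^ 2 = (Q * L) * (e * L / 16) := by ring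
    rw [this, hQL]
    nlinarith
  have h7 : 2 * Y ≤ e / 8 * Q := by
    have h8 : m * (2 * Y) ≤ m * (e / 8 * Q) := by
      have e1 : m * (2 * Y) = Q * L := by rw [hQL, ← hY]; ring
      have e2 : m * (e / 8 * Q) = Q * (e * m / 8) := by ring
      rw [e1, e2]
      exact mul_le_mul_of_nonneg_left (by linarith) hQ0.le
    exact le_of_mul_le_mul_left h8 (by linarith)
  have h9 : (1 + x) * Y ≤ 2 * Y := mul_le_mul_of_nonneg_right (by linarith) hY0.le
  have h10 : 3 * m ≤ Y / 8 := by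
    have h11 : 2 * m * (3 * m) ≤ 2 * m * (Y / 8) := by
      have e1 : 2 * m * (Y / 8) = D / 8 := by rw [← hY]; ring
      rw [e1]
      have h12 : m ^ 2 * 96 ≤ m ^ 2 * (96 * L ^ 2) := by
        apply mul_le_mul_of_nonneg_left _ (by positivity)
        nlinarith
      nlinarith
    exact le_of_mul_le_mul_left h11 (by linarith)
  nlinarith [mul_nonneg hA hQ0.le]

set_option maxHeartbeats 1000000 in
theorem ff_main {U : Type} (F : SimpleGraph U) (A : ℝ) (hA : 0 ≤ A) (hF : GB F A)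
    (ε : ℝ) (hε : 0 < ε) : ∃ D₀ : ℕ, ∀ (V : Type) [Fintype V]
    (G : SimpleGraph V) [DecidableRel G.Adj] (D p : ℕ), D₀ ≤ D → (∀ v, G.degree v ≤ D) →
    F.Free G → (A / 2 + ε) * (D / Real.log D) ≤ p → TotLab G p (D + 2 * p - 1) := by
  obtain ⟨e, he⟩ : ∃ e : ℝ, e = min ε 1 / (A + 1) := ⟨_, rfl⟩
  have hA1 : 0 < A + 1 := by linarith
  have hmin0 : 0 < min ε 1 := lt_min hε (by norm_num)
  have he0 : 0 < e := by rw [he]; positivity
  have heA : (A + 1) * e ≤ 1 := by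
    rw [he, mul_div_cancel₀ _ hA1.ne']; exact min_le_right _ _
  have heA2 : (A + 1) * e ≤ ε := by
    rw [he, mul_div_cancel₀ _ hA1.ne']; exact min_le_left _ _
  have hAe : 0 ≤ A * e := by positivity
  have heε : e ≤ ε := by linarith
  have he1 : e ≤ 1 := by linarith
  obtain ⟨η, hη⟩ : ∃ η : ℝ, η = e ^ 2 / 16 := ⟨_, rfl⟩
  have he2 : e ^ 2 ≤ 1 := pow_le_one₀ he0.le he1
  have hη0 : 0 < η := by rw [hη]; positivity
  have hη1 : η ≤ 1 / 16 := by rw [hη]; linarith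
  have hB0 : (0 : ℝ) < 10 ^ 4 / e ^ 2 := by positivity
  have hB4 : (10 : ℝ) ^ 4 ≤ 10 ^ 4 / e ^ 2 := by
    rw [le_div_iff₀ (by positivity)]
    linarith
  obtain ⟨y₀, hgb⟩ := hF (e / 8) (by positivity)
  have h1 := (isLittleO_pow_exp_pos_mul_atTop 6 (show 0 < η / 2 by positivity)).bound
    (show (0 : ℝ) < (10 ^ 4 / e ^ 2)⁻¹ by positivity)
  have h2 : Filter.Tendsto (fun n : ℕ => Real.log (n : ℝ)) Filter.atTop Filter.atTop :=
    Real.tendsto_log_atTop.comp tendsto_natCast_atTop_atTop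
  have h3 := h2.eventually ((h1.and (Filter.eventually_ge_atTop (10 ^ 4 / e ^ 2 : ℝ))).and
    (Filter.eventually_ge_atTop y₀))
  obtain ⟨N, hN⟩ := Filter.eventually_atTop.1 h3
  refine ⟨max N 1, ?_⟩
  intro V _ G _ D p hD hdeg hfree hp
  classical
  obtain ⟨⟨h4, hB1⟩, hy₀⟩ := hN D (le_trans (le_max_left _ _) hD)
  have hD1 : 1 ≤ D := le_trans (le_max_right _ _) hD
  have hD1r : (1 : ℝ) ≤ D := by exact_mod_cast hD1
  have hD0 : (0 : ℝ) < D := by linarith
  obtain ⟨L, hL⟩ : ∃ L : ℝ, L = Real.log (D : ℝ) := ⟨_, rfl⟩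
  rw [← hL] at h4 hB1 hp hy₀
  have hL0 : 0 < L := lt_of_lt_of_le hB0 hB1
  have hexpL : Real.exp L = D := by rw [hL]; exact Real.exp_log hD0
  have hB2' : 10 ^ 4 / e ^ 2 * L ^ 6 ≤ Real.exp (η / 2 * L) := by
    have h5 : L ^ 6 ≤ (10 ^ 4 / e ^ 2)⁻¹ * Real.exp (η / 2 * L) := by
      simpa [abs_of_nonneg (Real.exp_pos (η / 2 * L)).le, abs_of_nonneg hL0.le] using h4
    have h6 := mul_le_mul_of_nonneg_left h5 hB0.le
    rwa [← mul_assoc, mul_inv_cancel₀ hB0.ne', one_mul] at h6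
  have hB2 : 10 ^ 4 / e ^ 2 * L ^ 6 ≤ D := by
    refine hB2'.trans ?_
    rw [← hexpL]
    apply Real.exp_le_exp.2
    have : η / 2 * L ≤ 1 * L := mul_le_mul_of_nonneg_right (by linarith) hL0.le
    linarith
  obtain ⟨M, hM⟩ : ∃ M : ℝ, M = 8 / e := ⟨_, rfl⟩
  have hM0 : 0 < M := by rw [hM]; positivity
  obtain ⟨m, hm⟩ : ∃ m : ℕ, m = ⌈M * L⌉₊ := ⟨_, rfl⟩
  have hm1 : M * L ≤ m := by rw [hm]; exact Nat.le_ceil _
  have hm2 : (m : ℝ) ≤ M * L + 1 := by rw [hm]; exact (Nat.ceil_lt_add_one (by positivity)).le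
  obtain ⟨x, hx⟩ : ∃ x : ℝ, x = 1 / L ^ 2 := ⟨_, rfl⟩
  obtain ⟨hL4, hm0, hm3, h96, heL, hem, hxD, hx0, hx1, hYe, h24⟩ :=
    tf_num he0 he1 hM hB1 hB2 hm1 hm2 hx
  obtain ⟨Y, hY'⟩ : ∃ Y : ℝ, Y = D / (2 * m) := ⟨_, rfl⟩
  rw [← hY'] at hYe
  have hY : 2 * m * Y = D := by rw [hY']; field_simp
  have hY0 : 0 < Y := by rw [hY']; positivity
  have hm1' : (1 : ℝ) ≤ m := by
    have : 0 < m := by exact_mod_cast hm0
    exact_mod_cast this
  have hmN : 1 ≤ m := by exact_mod_cast hm1'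
  have hL2 : 1 ≤ L ^ 2 := one_le_pow₀ (by linarith)
  have h8 : 8 * (m : ℝ) ≤ D := by
    refine le_trans ?_ h96
    have h9 : (m : ℝ) * 8 ≤ m * (96 * L ^ 2 * m) := by
      apply mul_le_mul_of_nonneg_left _ hm0.le
      have h10 : 1 * 1 ≤ L ^ 2 * (m : ℝ) := mul_le_mul hL2 hm1' (by norm_num) (by positivity)
      linarith
    linarith [h9, show (m : ℝ) * (96 * L ^ 2 * m) = 96 * L ^ 2 * (m : ℝ) ^ 2 by ring]
  have hcast : ((2 * m : ℕ) : ℝ) = 2 * (m : ℝ) := by push_cast; ring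
  have hexp := tf_exp hL hD0 hD1r hm0 hL0 hx h24 h8
  obtain ⟨t, ht1, ht2⟩ := partition G (2 * m) D (by omega) hD1 hdeg x hx0.le hx1 (by
    rw [hcast]
    push_cast
    exact hexp)
  rw [hcast] at ht2
  obtain ⟨w, hw⟩ : ∃ w : ℕ, w = ⌊(1 + x) * D / (2 * (m : ℝ))⌋₊ := ⟨_, rfl⟩
  rw [← hw] at ht2
  have hYw : (1 + x) * D / (2 * (m : ℝ)) = (1 + x) * Y := by rw [hY']; ring
  rw [hYw] at hw
  have hwY : (w : ℝ) ≤ (1 + x) * Y := by rw [hw]; exact Nat.floor_le (by positivity)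
  have hYw2 : Y ≤ w + 1 := by
    have h9 : (1 + x) * Y ≤ w + 1 := by rw [hw]; exact (Nat.lt_floor_add_one _).le
    have h10 : 0 < x * Y := by positivity
    linarith
  obtain ⟨k, hk⟩ : ∃ k : ℕ, k = ⌈(A + e / 2) * Y / L⌉₊ := ⟨_, rfl⟩
  have hk1 : (A + e / 2) * Y / L ≤ k := by rw [hk]; exact Nat.le_ceil _
  have hk2 : (k : ℝ) ≤ (A + e / 2) * Y / L + 1 := by
    rw [hk]; exact (Nat.ceil_lt_add_one (by positivity)).le
  have hYL : 100 * L ≤ Y := by
    have : e * Y ≤ 1 * Y := mul_le_mul_of_nonneg_right he1 hY0.le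
    linarith
  have hAL : (A + e / 2) * 100 ≤ L := by
    have a1 : (A + 1) ≤ 1 / e := by rw [le_div_iff₀ he0]; exact heA
    have a2 : (1 : ℝ) / e ≤ 1 / e ^ 2 := by
      rw [div_le_div_iff₀ he0 (by positivity)]
      nlinarith
    have a3 : 10 ^ 4 * (1 / e ^ 2) = 10 ^ 4 / e ^ 2 := by ring
    have a4 : 10 ^ 4 * (A + 1) ≤ L := by
      calc 10 ^ 4 * (A + 1) ≤ 10 ^ 4 * (1 / e ^ 2) := by linarith
        _ = 10 ^ 4 / e ^ 2 := a3
        _ ≤ L := hB1
    linarith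
  have hkY : (k : ℝ) ≤ Y := by
    have h9 : (A + e / 2) * Y / L ≤ Y / 100 := by
      rw [div_le_iff₀ hL0]
      have : (A + e / 2) * 100 * Y ≤ L * Y := mul_le_mul_of_nonneg_right hAL hY0.le
      linarith
    have h12 : 100 ≤ Y := by linarith
    linarith
  -- the logarithm of `Y`
  have hlogY : (1 - η) * L ≤ Real.log Y := by
    rw [Real.le_log_iff_exp_le hY0, hY', le_div_iff₀ (by positivity)]
    have h9 : Real.exp ((1 - η) * L) * Real.exp (η * L) = D := by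
      rw [← Real.exp_add, ← hexpL]
      congr 1; ring
    rw [← h9]
    have h10 : 2 * (m : ℝ) ≤ Real.exp (η * L) := by
      have h11 : Real.exp (η / 2 * L) ≤ Real.exp (η * L) := by
        apply Real.exp_le_exp.2
        have : 0 < η * L := by positivity
        linarith
      refine le_trans ?_ (hB2'.trans h11)
      have h13 : L ^ 2 ≤ L ^ 6 := pow_le_pow_right₀ (by linarith) (by norm_num)
      have h14 : 1 * L ^ 6 ≤ 10 ^ 4 / e ^ 2 * L ^ 6 := by
        apply mul_le_mul_of_nonneg_right _ (by positivity)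
        linarith
      linarith
    exact mul_le_mul_of_nonneg_left h10 (Real.exp_pos ((1 - η) * L)).le
  have hy1 : Y ≤ (1 + x) * Y := by
    have : 0 < x * Y := by positivity
    linarith
  have hyy : (A + e / 8) * ((1 + x) * Y / Real.log ((1 + x) * Y)) ≤ k := by
    refine le_trans ?_ hk1
    have hlog2 : (1 - η) * L ≤ Real.log ((1 + x) * Y) := hlogY.trans (Real.log_le_log hY0 hy1)
    have hpos : 0 < (1 - η) * L := mul_pos (by linarith) hL0
    have b1 : (1 + x) * Y / Real.log ((1 + x) * Y) ≤ (1 + x) * Y / ((1 - η) * L) :=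
      div_le_div_of_nonneg_left (by positivity) hpos hlog2
    refine (mul_le_mul_of_nonneg_left b1 (by positivity)).trans ?_
    rw [← mul_div_assoc, div_le_div_iff₀ hpos hL0]
    have b2 : (A + e / 8) * (1 + x) ≤ (A + e / 2) * (1 - η) := by
      have c1 : (A + 1) * x ≤ e / 16 := by
        have d1 : (A + 1) ≤ 1 / e := by rw [le_div_iff₀ he0]; exact heA
        have d2 : (A + 1) * x ≤ 1 / e * x := mul_le_mul_of_nonneg_right d1 hx0.le
        have d3 : x ≤ e ^ 2 / 16 := by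
          rw [hx, div_le_iff₀ (by positivity)]
          have d4 : 16 * 16 ≤ (e * L) * (e * L) :=
            mul_le_mul heL heL (by norm_num) (by positivity)
          have d5 : e ^ 2 / 16 * L ^ 2 = (e * L) * (e * L) / 16 := by ring
          rw [d5]; linarith
        have d6 : 1 / e * x ≤ 1 / e * (e ^ 2 / 16) :=
          mul_le_mul_of_nonneg_left d3 (by positivity)
        have d7 : 1 / e * (e ^ 2 / 16) = e / 16 := by field_simp
        linarith
      have c2 : (A + e / 8) * x ≤ (A + 1) * x :=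
        mul_le_mul_of_nonneg_right (by linarith) hx0.le
      have c3 : (A + e / 2) * η ≤ (A + 1) * η :=
        mul_le_mul_of_nonneg_right (by linarith) hη0.le
      have c4 : (A + 1) * η ≤ e / 16 := by
        have : (A + 1) * η = ((A + 1) * e) * (e / 16) := by rw [hη]; ring
        rw [this]
        calc ((A + 1) * e) * (e / 16) ≤ 1 * (e / 16) :=
              mul_le_mul_of_nonneg_right heA (by positivity)
          _ = e / 16 := one_mul _
      linarith
    have hYL0 : 0 ≤ Y * L := by positivity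
    have b3 := mul_le_mul_of_nonneg_right b2 hYL0
    linarith
  obtain ⟨c, hc1, hc2⟩ := ff_colour F G hfree t w k ((1 + x) * Y)
    ((A + e / 8) * ((1 + x) * Y / Real.log ((1 + x) * Y)))
    (fun P _ h5 h6 => by
      refine hgb ((1 + x) * Y) (by linarith) V G P h5 ?_
      intro v hv
      refine le_trans (le_of_eq ?_) (h6 v hv)
      congr 2
      ext u
      simp) hwY hyy ht2
  have hkw : k ≤ w + 1 := by
    have : (k : ℝ) ≤ w + 1 := hkY.trans hYw2
    exact_mod_cast this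
  have hDL : 0 < (D : ℝ) / L := by positivity
  have hp2 : (A / 2 + e) * (D / L) ≤ p := by
    refine le_trans ?_ hp
    exact mul_le_mul_of_nonneg_right (by linarith) hDL.le
  have hH3 := ff_H3 (w := w) (k := k) hA he0 he1 hL4 hm1' h96 heL hem hxD hx1 hY hY0 hwY hk2 hp2
  have hpe : e * (D / L) ≤ p := by
    refine le_trans ?_ hp2
    exact mul_le_mul_of_nonneg_right (by linarith) hDL.le
  have hp1 : 1 ≤ p := by
    have : (0 : ℝ) < p := lt_of_lt_of_le (by positivity) hpe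
    exact_mod_cast this
  refine structB G m 0 w k p D (by omega) hp1 t ht1 ht2 c hc1 hc2 hkw ?_ ?_ ?_ ?_
  · have h9 : ((m : ℝ) - 1 - 0) * k ≤ ((m : ℝ) - 1 - 2 * 0) * (w + 1) := by
      have : (k : ℝ) ≤ w + 1 := by exact_mod_cast hkw
      have := mul_le_mul_of_nonneg_left this (by linarith : (0 : ℝ) ≤ (m : ℝ) - 1)
      linarith
    exact_mod_cast h9
  · have h9 := ff_H2 (w := w) (k := k) hA he0 he1 heA hL4 hB1 hm1' hm3 h96 hxD hY hY0 hwY hYw2 hk2
    exact_mod_cast h9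
  · exact_mod_cast hH3
  · have h9 : (2 * (0 : ℝ) + 1) * (w + 1) ≤ p - 1 + (0 + 1) * k := by
      have h10 : (1 + x) * Y ≤ 2 * Y := mul_le_mul_of_nonneg_right (by linarith) hY0.le
      have h11 : 2 * Y ≤ e * (D / L) / 8 := by
        have e1 : (m : ℝ) * (2 * Y) ≤ m * (e * (D / L) / 8) := by
          have e2 : (m : ℝ) * (2 * Y) = D := by rw [← hY]; ring
          have e3 : (m : ℝ) * (e * (D / L) / 8) = (e * m) * (D / L) / 8 := by ring
          rw [e2, e3]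
          have e4 : (8 * L) * (D / L) ≤ (e * m) * (D / L) :=
            mul_le_mul_of_nonneg_right hem hDL.le
          have e5 : (8 * L) * (D / L) = 8 * D := by field_simp
          linarith
        exact le_of_mul_le_mul_left e1 hm0
      have hk0 : (0 : ℝ) ≤ k := Nat.cast_nonneg _
      have h13 : 100 ≤ Y := by linarith
      linarith
    exact_mod_cast h9

end Pool.Agent.X73.HYF
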